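import Mathlib
import Pool.Agent.H.MP_72b8ed_an.A

set_option autoImplicit false
open scoped ComplexConjugate ComplexOrder
open Matrix Metric Pool.Agent.H.MP_72b8ed_an

namespace Pool.Agent.Results.MP_72b8ed_an.Counter

/-- `f` is a positive semidefinite function on `Ω × Ω`. -/
def IsKernel (Ω : Set ℂ) (f : ℂ → ℂ → ℂ) : Prop :=
  (Matrix.of fun x y : Ω => f x y).PosSemidef

/-- holomorphic in the first variable, antiholomorphic in the second -/
def Holo (Ω : Set ℂ) (f : ℂ → ℂ → ℂ) : Prop :=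
  (∀ w ∈ Ω, DifferentiableOn ℂ (fun z => f z w) Ω) ∧
    ∀ z ∈ Ω, DifferentiableOn ℂ (fun w => conj (f z w)) Ω

/-- near the origin `f z w = ∑ c n z^n conj(w)^n` -/
def Expands (f : ℂ → ℂ → ℂ) (c : ℕ → ℂ) : Prop :=
  ∃ r > 0, ∀ z w : ℂ, ‖z‖ < r → ‖w‖ < r → HasSum (fun n => c n * z ^ n * conj w ^ n) (f z w)

/-- `θ` is the master certificate of the coefficient sequence `a` -/
def IsMaster (a θ : ℕ → ℝ) : Prop :=
  θ 0 = 0 ∧ θ 1 = a 1 ∧ ∀ b, 2 ≤ b → θ b = max 0 (a b - ∑ u ∈ Finset.Ioo 0 b, θ u * a (b - u))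

/-- the domain `Ω¹_θ` -/
def Om1 (θ : ℕ → ℝ) : Set ℂ :=
  {x | x ∈ interior {x : ℂ | BddAbove (Set.range fun b => θ b * ‖x‖ ^ (2 * b))} ∧
    ∃ S < 1, HasSum (fun b => θ b * ‖x‖ ^ (2 * b)) S}

noncomputable def a (n : ℕ) : ℝ := if n = 0 then 1 else 1 / 2
noncomputable def th (n : ℕ) : ℝ := if n = 0 then 0 else (1 / 2) ^ n
noncomputable def k (z w : ℂ) : ℂ := (1 - z * conj w / 2) / (1 - z * conj w)
noncomputable def h (z w : ℂ) : ℂ := (z + z ^ 2) / 4 * conj ((w + w ^ 2) / 4)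

theorem ne1 {t : ℂ} (ht : ‖t‖ < 1) : 1 - t ≠ 0 := by
  intro e
  rw [← sub_eq_zero.1 e] at ht
  simp at ht

theorem nt {z w : ℂ} (hz : ‖z‖ < 1) (hw : ‖w‖ < 1) : ‖z * conj w‖ < 1 := by
  rw [norm_mul, Complex.norm_conj]
  exact mul_lt_one_of_nonneg_of_lt_one_left (norm_nonneg _) hz hw.le

theorem nt2 {z w : ℂ} (hz : ‖z‖ < 1) (hw : ‖w‖ < 1) : ‖z * conj w / 2‖ < 1 := by
  have := nt hz hw
  rw [norm_div, Complex.norm_two]
  linarith [norm_nonneg (z * conj w)]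

theorem nphi {z : ℂ} (hz : ‖z‖ < 1) : ‖(z + z ^ 2) / 4‖ < 1 := by
  have := norm_add_le z (z ^ 2)
  rw [norm_pow] at this
  rw [norm_div, Complex.norm_ofNat]
  nlinarith [norm_nonneg z]

theorem sum_th (q : ℝ) (h0 : 0 ≤ q) (h1 : q < 1) :
    HasSum (fun b : ℕ => if b = 0 then 0 else q ^ b) ((1 - q)⁻¹ - 1) := by
  refine ((hasSum_geometric_of_lt_one h0 h1).sub (hasSum_ite_eq 0 (1 : ℝ))).congr_fun fun b => ?_
  split_ifs with e <;> simp [e]

theorem th_eq (x : ℂ) (b : ℕ) :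
    th b * ‖x‖ ^ (2 * b) = if b = 0 then 0 else (‖x‖ ^ 2 / 2) ^ b := by
  unfold th
  split_ifs
  · simp
  · rw [pow_mul, ← mul_pow]; ring

theorem master : IsMaster a th := by
  refine ⟨by simp [th], by simp [th, a], fun b hb => ?_⟩
  have key : ∀ n : ℕ, ∑ u ∈ Finset.Ioo 0 (n + 1), th u = 1 - (1 / 2) ^ n := by
    intro n
    induction n with
    | zero => simp [show Finset.Ioo 0 1 = ∅ from rfl]
    | succ n ih =>
      have : Finset.Ioo 0 (n + 1 + 1) = insert (n + 1) (Finset.Ioo 0 (n + 1)) := by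
        ext u; simp only [Finset.mem_Ioo, Finset.mem_insert]; omega
      rw [this, Finset.sum_insert (by simp), ih]
      simp only [th, Nat.succ_ne_zero, if_false]
      ring
  obtain ⟨n, rfl⟩ : ∃ n, b = n + 1 := ⟨b - 1, by omega⟩
  have : ∑ u ∈ Finset.Ioo 0 (n + 1), th u * a (n + 1 - u) =
      ∑ u ∈ Finset.Ioo 0 (n + 1), th u * (1 / 2) :=
    Finset.sum_congr rfl fun u hu => by
      have : n + 1 - u ≠ 0 := by have := (Finset.mem_Ioo.1 hu).2; omega
      simp [a, this]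
  rw [this, ← Finset.sum_mul, key]
  simp only [th, a, Nat.succ_ne_zero, if_false]
  rw [max_eq_right (by have : (0 : ℝ) ≤ (1 / 2) ^ n := by positivity
                       linarith)]
  ring

theorem om : Om1 th = ball 0 1 := by
  ext x
  rw [mem_ball_zero_iff]
  constructor
  · rintro ⟨-, S, h1, h2⟩
    by_contra! hx
    have := hasSum_le (fun b => ?_) (sum_th (1 / 2) (by norm_num) (by norm_num)) h2
    · norm_num at this; linarith
    · rw [th_eq]
      split_ifs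
      · rfl
      · exact pow_le_pow_left₀ (by norm_num) (by nlinarith) _
  · intro hx
    have hq : ∀ y : ℂ, ‖y‖ < 1 → ‖y‖ ^ 2 / 2 < 1 / 2 := fun y hy => by nlinarith [norm_nonneg y]
    refine ⟨interior_maximal (t := ball (0 : ℂ) 1) (fun y hy => ?_) isOpen_ball
      (mem_ball_zero_iff.2 hx), (1 - ‖x‖ ^ 2 / 2)⁻¹ - 1, ?_, ?_⟩
    · refine ⟨1, ?_⟩
      rintro _ ⟨b, rfl⟩
      have := hq y (mem_ball_zero_iff.1 hy)
      simp only [th_eq]
      split_ifs
      · norm_num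
      · exact pow_le_one₀ (by positivity) (by linarith)
    · have := hq x hx
      rw [sub_lt_iff_lt_add, inv_lt_comm₀ (by linarith) (by norm_num)]
      linarith
    · simp only [th_eq]
      exact sum_th _ (by positivity) (by linarith [hq x hx])

theorem k_eq {z w : ℂ} (hz : ‖z‖ < 1) (hw : ‖w‖ < 1) :
    k z w = 1 / 2 * (1 - z * conj w)⁻¹ + 1 / 2 := by
  have := ne1 (nt hz hw)
  unfold k
  field_simp
  ring

theorem result : ∃ (Ω : Set ℂ) (k h s : ℂ → ℂ → ℂ) (a θ : ℕ → ℝ),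
    IsOpen Ω ∧ IsConnected Ω ∧ 0 ∈ Ω ∧
    IsKernel Ω k ∧ Holo Ω k ∧ (∀ n, 0 < a n) ∧ a 0 = 1 ∧ Expands k (fun n => a n) ∧
    IsMaster a θ ∧ Om1 θ = Ω ∧ IsKernel Ω h ∧
    IsKernel Ω s ∧ Holo Ω s ∧ (∀ z ∈ Ω, s z 0 = 1) ∧ (∀ z ∈ Ω, ∀ w ∈ Ω, s z w ≠ 0) ∧
    IsKernel Ω (fun z w => 1 - 1 / s z w) ∧
    (∀ z ∈ Ω, ∀ w ∈ Ω, k z w = (1 - h z w) * s z w) ∧ ¬ ∃ c, Expands s c := by
  have mb : ∀ x : ball (0 : ℂ) 1, ‖(x : ℂ)‖ < 1 := fun x => mem_ball_zero_iff.1 x.2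
  have hT := psd_dyad fun x : ball (0 : ℂ) 1 => (x : ℂ)
  have hh := psd_dyad fun x : ball (0 : ℂ) 1 => ((x : ℂ) + x ^ 2) / 4
  have hP := psd_dyad fun x : ball (0 : ℂ) 1 => (x : ℂ) * (1 - x)
  have hG := psd_geom (psd_real hT (1 / 2) (by norm_num)) fun x y => by
    simpa [div_eq_inv_mul] using nt2 (mb x) (mb y)
  have hk : IsKernel (ball 0 1) k := by
    have := (psd_real (psd_geom hT fun x y => nt (mb x) (mb y)) (1 / 2) (by norm_num)).add
      (psd_real psd_one (1 / 2) (by norm_num))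
    refine (congrArg PosSemidef ?_).mp this
    ext x y
    simp [k_eq (mb x) (mb y)]
  have h1 : ∀ {z w : ℂ}, z ∈ ball (0 : ℂ) 1 → w ∈ ball (0 : ℂ) 1 → 1 - h z w ≠ 0 := fun hz hw =>
    ne1 (nt (nphi (mem_ball_zero_iff.1 hz)) (nphi (mem_ball_zero_iff.1 hw)))
  have h2 : ∀ {z w : ℂ}, z ∈ ball (0 : ℂ) 1 → w ∈ ball (0 : ℂ) 1 → 1 - z * conj w ≠ 0 :=
    fun hz hw => ne1 (nt (mem_ball_zero_iff.1 hz) (mem_ball_zero_iff.1 hw))
  have h3 : ∀ {z w : ℂ}, z ∈ ball (0 : ℂ) 1 → w ∈ ball (0 : ℂ) 1 → 1 - z * conj w / 2 ≠ 0 :=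
    fun hz hw => ne1 (nt2 (mem_ball_zero_iff.1 hz) (mem_ball_zero_iff.1 hw))
  have ck : ∀ z w, conj (k z w) = k w z := fun z w => by simp [k, mul_comm, map_ofNat]
  have ch : ∀ z w, conj (h z w) = h w z := fun z w => by simp [h, mul_comm, map_ofNat]
  have dk : ∀ w ∈ ball (0 : ℂ) 1, DifferentiableOn ℂ (fun z => k z w) (ball 0 1) := fun w hw =>
    DifferentiableOn.div (by fun_prop) (by fun_prop) fun z hz => h2 hz hw
  have ds : ∀ w ∈ ball (0 : ℂ) 1, DifferentiableOn ℂ (fun z => k z w / (1 - h z w)) (ball 0 1) :=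
    fun w hw => (dk w hw).div (by unfold h; fun_prop) fun z hz => h1 hz hw
  refine ⟨ball 0 1, k, h, fun z w => k z w / (1 - h z w), a, th, isOpen_ball,
    (convex_ball _ _).isConnected ⟨0, by simp⟩, by simp, hk,
    ⟨dk, fun z hz => by simpa only [ck] using dk z hz⟩,
    fun n => by unfold a; split_ifs <;> norm_num, by simp [a], ⟨1, one_pos, fun z w hz hw => ?_⟩,
    master, om, hh, ?_, ⟨ds, fun z hz => by
      simpa only [map_div₀, map_sub, map_one, ck, ch] using ds z hz⟩, fun z _ => by simp [k, h],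
    fun z hz w hw => div_ne_zero (div_ne_zero (h3 hz hw) (h2 hz hw)) (h1 hz hw), ?_,
    fun z hz w hw => (mul_div_cancel₀ _ (h1 hz hw)).symm, ?_⟩
  · rw [k_eq hz hw]
    refine (((hasSum_geometric_of_norm_lt_one (nt hz hw)).mul_left (1 / 2)).add
      (hasSum_ite_eq 0 (1 / 2 : ℂ))).congr_fun fun n => ?_
    by_cases e : n = 0
    · subst e; simp only [a]; norm_num
    · simp only [a, e, if_false, mul_pow]; push_cast; ring
  · exact hk.hadamard (psd_geom hh fun x y => nt (nphi (mb x)) (nphi (mb y)))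
  · have := hh.add ((psd_real hT (1 / 2) (by norm_num)).hadamard
      ((psd_one.add (psd_real hT (3 / 8) (by norm_num))).add
        ((psd_real ((hT.hadamard hT).add hP) (1 / 16) (by norm_num)).hadamard hG)))
    refine (congrArg PosSemidef ?_).mp this
    ext x y
    have a1 := h1 x.2 y.2
    have a2 := h2 x.2 y.2
    have a3 := h3 x.2 y.2
    have a4 : 1 - (1 / 2 : ℂ) * (x * conj (y : ℂ)) ≠ 0 := by
      convert a3 using 2; ring
    have a5 : (2 : ℂ) - x * conj (y : ℂ) ≠ 0 := by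
      intro e; apply a3; linear_combination e / 2
    simp only [Matrix.add_apply, hadamard_apply, Matrix.smul_apply, of_apply, smul_eq_mul, k,
      one_div_div]
    simp only [h, map_div₀, map_add, map_pow, map_mul, map_sub, map_one, map_ofNat]
    push_cast
    field_simp
    ring
  · rintro ⟨c, r, hr, hc⟩
    obtain ⟨x, x0, x1, x2⟩ : ∃ x : ℝ, 0 < x ∧ x < r ∧ x < 1 :=
      ⟨min r 1 / 2, by positivity, by linarith [min_le_left r 1], by linarith [min_le_right r 1]⟩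
    have n1 : ‖(x : ℂ)‖ = x := by simp [x0.le]
    have b1 : (x : ℂ) ∈ ball (0 : ℂ) 1 := mem_ball_zero_iff.2 (by rwa [n1])
    have b2 : (-x : ℂ) ∈ ball (0 : ℂ) 1 := mem_ball_zero_iff.2 (by rwa [norm_neg, n1])
    have e1 := hc x x (by rwa [n1]) (by rwa [n1])
    have e2 := hc (-x) (-x) (by rwa [norm_neg, n1]) (by rwa [norm_neg, n1])
    have e3 : (fun n => c n * (-x : ℂ) ^ n * conj (-x : ℂ) ^ n) =
        fun n => c n * (x : ℂ) ^ n * conj (x : ℂ) ^ n := by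
      funext n
      rw [mul_assoc, mul_assoc, ← mul_pow, ← mul_pow, map_neg, neg_mul_neg]
    rw [e3] at e2
    have e4 := e1.unique e2
    have e5 : k (-x) (-x) = k x x := by simp [k]
    simp only [e5] at e4
    rw [div_eq_div_iff (h1 b1 b1) (h1 b2 b2),
      mul_right_inj' (show k x x ≠ 0 from div_ne_zero (h3 b1 b1) (h2 b1 b1)), sub_right_inj] at e4
    simp only [h, map_div₀, map_add, map_pow, map_neg, Complex.conj_ofReal, map_ofNat] at e4
    have : (x : ℂ) ^ 3 = 0 := by linear_combination (-4) * e4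
    simp [x0.ne'] at this

end Pool.Agent.Results.MP_72b8ed_an.Counter
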